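import Mathlib

/-! Definitions for nef line bundles on birational models of quotients of abelian varieties. -/

set_option autoImplicit false

namespace Pool.Agent.H19.TBM

variable {V : Type*} [NormedAddCommGroup V] [NormedSpace ℂ V]

/-- The holomorphic function `s` vanishes at `p` to order at least `r`: all its directional
derivatives at `p` of order less than `r` vanish. -/
def VanishesTo (s : V → ℂ) (p : V) (r : ℝ) : Prop :=
  ∀ q : ℕ, (q : ℝ) < r → ∀ u : V, iteratedDeriv q (fun t : ℂ => s (p + t • u)) 0 = 0

/-- What nefness of a line bundle `L` on a projective birational model `X` of `V / Γ` gives. Here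
`j` is the factor of automorphy of the direct image of `L` on `V / Γ`, the number `b p` is the
multiplicity at `p` of the exceptional part of `L`, and `jM` is the factor of automorphy of the
direct image of an ample line bundle `M` on `X`. For each `k ≥ 1` the line bundle `k L + M` is
ample, so that some multiple `m (k L + M)` has a section whose multiplicity at each `p` is at least
`m k b(p)`, and at the given point `v₀` at most `m (k b(v₀) + C)`. -/
def NefModel (Γ : Subgroup (V ≃ᵃ[ℂ] V)) (j jM : (V ≃ᵃ[ℂ] V) → V → ℂ) (b : V → ℝ) : Prop :=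
  ∀ v₀ : V, ∃ C : ℝ, ∀ k : ℕ, 1 ≤ k → ∃ m : ℕ, 1 ≤ m ∧ ∃ s : V → ℂ, Differentiable ℂ s ∧
    (∀ γ ∈ Γ, ∀ v, s (γ v) = (j γ v ^ k * jM γ v) ^ m * s v) ∧
    (∀ p, VanishesTo s p (m * (k * b p))) ∧
    ∀ r : ℝ, VanishesTo s v₀ r → r ≤ m * (k * b v₀ + C)

end Pool.Agent.H19.TBM
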