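import Pool.Agent.H19.TBM.Rat
import Pool.Agent.H19.TBM.Defs

/-!
# Vanishing orders on the translates of the kernel of a form
-/

set_option autoImplicit false

namespace Pool.Agent.H19.TBM

open Complex

/-- Schwarz lemma for an entire function vanishing to order `N` at the origin. -/
theorem schwarz {g : ℂ → ℂ} (hg : Differentiable ℂ g) {N : ℝ}
    (hN : ∀ q : ℕ, (q : ℝ) < N → iteratedDeriv q g 0 = 0) {A : ℝ}
    (hA : ∀ z : ℂ, ‖z‖ = 2 → ‖g z‖ ≤ A) : ‖g 1‖ ≤ 2 * A * (2 : ℝ) ^ (-N) := by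
  have hA0 : 0 ≤ A := (norm_nonneg _).trans (hA 2 (by simp))
  obtain ⟨M, hM⟩ : ∃ M : ℕ, M = ⌈N⌉₊ := ⟨_, rfl⟩
  have hs := Complex.hasSum_taylorSeries_of_entire hg 0 1
  simp only [sub_zero, one_pow, one_smul] at hs
  rw [← hasSum_nat_add_iff' M] at hs
  have h0 : ∑ i ∈ Finset.range M, ((i.factorial : ℂ)⁻¹ • iteratedDeriv i g 0) = 0 := by
    refine Finset.sum_eq_zero fun i hi => ?_
    have h1 : (i : ℝ) < N := by
      have h2 := Finset.mem_range.1 hi
      rw [hM] at h2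
      exact Nat.lt_ceil.1 h2
    rw [hN i h1]
    simp
  rw [h0, sub_zero] at hs
  have hb : ∀ i : ℕ, ‖(((i + M).factorial : ℂ)⁻¹ • iteratedDeriv (i + M) g 0)‖ ≤
      A / 2 ^ M * (1 / 2) ^ i := by
    intro i
    have h1 := Complex.norm_iteratedDeriv_le_of_forall_mem_sphere_norm_le (c := 0) (R := 2) (C := A)
      (f := g) (i + M) (by norm_num) hg.diffContOnCl (by
        intro z hz
        exact hA z (by simpa using hz))
    have h2 : (0 : ℝ) < ((i + M).factorial : ℝ) := by exact_mod_cast Nat.factorial_pos _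
    rw [norm_smul, norm_inv, Complex.norm_natCast, inv_mul_le_iff₀ h2]
    refine h1.trans (le_of_eq ?_)
    rw [pow_add, one_div_pow]
    field_simp
  have hgeo : HasSum (fun i : ℕ => A / 2 ^ M * (1 / 2 : ℝ) ^ i) (A / 2 ^ M * 2) :=
    hasSum_geometric_two.mul_left _
  have h1 := tsum_of_norm_bounded hgeo hb
  rw [hs.tsum_eq] at h1
  have h2 : ((2 : ℝ) ^ M)⁻¹ ≤ (2 : ℝ) ^ (-N) := by
    rw [← Real.rpow_natCast, ← Real.rpow_neg (by norm_num)]
    apply Real.rpow_le_rpow_of_exponent_le (by norm_num)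
    rw [hM]
    linarith [Nat.le_ceil N]
  calc ‖g 1‖ ≤ A / 2 ^ M * 2 := h1
    _ = 2 * A * ((2 : ℝ) ^ M)⁻¹ := by rw [div_eq_mul_inv]; ring
    _ ≤ 2 * A * (2 : ℝ) ^ (-N) := mul_le_mul_of_nonneg_left h2 (by positivity)

section

variable {V : Type*} [NormedAddCommGroup V] [NormedSpace ℂ V] [FiniteDimensional ℂ V]

theorem form_le {HM : V →ₗ[ℂ] V →ₛₗ[starRingEnd ℂ] ℂ}
    (hM1 : ∀ v w, HM w v = starRingEnd ℂ (HM v w)) (hM2 : ∀ v, 0 ≤ (HM v v).re) :
    ∃ C : ℝ, 0 ≤ C ∧ ∀ x, (HM x x).re ≤ C * ‖x‖ ^ 2 := by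
  obtain ⟨C, hC0, hC⟩ := H77.TQ.exists_bound hM1 hM2
  refine ⟨C ^ 2, sq_nonneg _, fun x => ?_⟩
  have h1 := hC x x
  have h2 := H77.TQ.nrm_sq hM2 x
  have h3 := H77.TQ.nrm_nonneg HM x
  have h4 : (HM x x).re ≤ ‖HM x x‖ := Complex.re_le_norm _
  have h5 : H77.TQ.nrm HM x ≤ C * ‖x‖ := by
    rcases h3.eq_or_lt with h6 | h6
    · rw [← h6]
      positivity
    · rw [← h2] at h4
      have h7 : H77.TQ.nrm HM x * H77.TQ.nrm HM x ≤ (C * ‖x‖) * H77.TQ.nrm HM x := by
        rw [← sq]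
        exact h4.trans h1
      exact le_of_mul_le_mul_right h7 h6
  rw [← h2, ← mul_pow]
  exact pow_le_pow_left₀ h3 h5 2

/-- Let `s` be an entire function whose absolute value transforms as a section of the `m`-th power
of a line bundle with form `HM` under the lattice vectors in the kernel of `H`. Then the vanishing
order of `s` at a point `p` is at most the vanishing order at any other point of `p + ker H`, up to
a constant multiple of `m`. -/
theorem order_le (H HM : V →ₗ[ℂ] V →ₛₗ[starRingEnd ℂ] ℂ) (Λ : AddSubgroup V)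
    (hM1 : ∀ v w, HM w v = starRingEnd ℂ (HM v w)) (hM2 : ∀ v, 0 ≤ (HM v v).re)
    {R : ℝ} (hR : ∀ w, H w = 0 → ∃ l ∈ Λ, H l = 0 ∧ ‖w - l‖ ≤ R) {p v₀ : V}
    (hpv : H (v₀ - p) = 0) :
    ∃ C' : ℝ, ∀ (m : ℕ) (s : V → ℂ), 1 ≤ m → Differentiable ℂ s →
      (∀ l ∈ Λ, H l = 0 → ∀ v, ‖s (v + l)‖ =
        Real.exp (m * (Real.pi * (HM v l).re + Real.pi / 2 * (HM l l).re)) * ‖s v‖) →
      ∀ N : ℝ, VanishesTo s p N → ∀ (q : ℕ) (u : V),
        iteratedDeriv q (fun t : ℂ => s (v₀ + t • u)) 0 ≠ 0 → N ≤ q + m * C' := by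
  obtain ⟨C, hC0, hC⟩ := form_le hM1 hM2
  have hR0 : 0 ≤ R := by
    obtain ⟨l, -, -, h⟩ := hR 0 (map_zero _)
    exact (norm_nonneg _).trans h
  have hlog : 0 < Real.log 2 := Real.log_pos (by norm_num)
  obtain ⟨C1, hC1⟩ : ∃ C1 : ℝ, C1 = C * (‖p‖ + 1 + 2 * R) ^ 2 := ⟨_, rfl⟩
  have hC1' : ∀ x : V, ‖x‖ ≤ ‖p‖ + 1 + 2 * R → (HM x x).re ≤ C1 := by
    intro x hx
    rw [hC1]
    exact (hC x).trans (mul_le_mul_of_nonneg_left (pow_le_pow_left₀ (norm_nonneg _) hx 2) hC0)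
  refine ⟨1 + Real.pi * C1 / (2 * Real.log 2), ?_⟩
  intro m s hm hs hper N hN q u hu
  have hm1 : (1 : ℝ) ≤ m := by exact_mod_cast hm
  have hpi := Real.pi_pos
  -- the periodic function
  obtain ⟨E, hE⟩ : ∃ E : V → ℝ, ∀ v, E v = Real.exp (-(m * (Real.pi / 2) * (HM v v).re)) :=
    ⟨_, fun _ => rfl⟩
  have hE0 : ∀ v, 0 < E v := fun v => by rw [hE]; exact Real.exp_pos _
  have hE1 : ∀ v, E v ≤ 1 := fun v => by
    rw [hE, Real.exp_le_one_iff, neg_nonpos]
    exact mul_nonneg (by positivity) (hM2 v)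
  have hPer : ∀ l ∈ Λ, H l = 0 → ∀ v, ‖s (v + l)‖ * E (v + l) = ‖s v‖ * E v := by
    intro l hl hHl v
    have h1 : (HM (v + l) (v + l)).re = (HM v v).re + 2 * (HM v l).re + (HM l l).re := by
      have h2 : (HM l v).re = (HM v l).re := by rw [hM1 v l, Complex.conj_re]
      simp only [map_add, LinearMap.add_apply, Complex.add_re]
      rw [h2]
      ring
    rw [hper l hl hHl v, hE, hE, h1, mul_right_comm, ← Real.exp_add, mul_comm]
    congr 2
    ring
  have hsE : ∀ (A B : ℝ) (x : V), 0 ≤ A → (HM x x).re ≤ B → ‖s x‖ * E x ≤ A →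
      ‖s x‖ ≤ A * Real.exp (m * (Real.pi / 2) * B) := by
    intro A B x hA hB h1
    have h2 : ‖s x‖ = (‖s x‖ * E x) * Real.exp (m * (Real.pi / 2) * (HM x x).re) := by
      rw [hE, mul_assoc, ← Real.exp_add]
      simp
    rw [h2]
    refine mul_le_mul h1 ?_ (Real.exp_pos _).le hA
    rw [Real.exp_le_exp]
    exact mul_le_mul_of_nonneg_left hB (by positivity)
  obtain ⟨θ, hθ⟩ : ∃ θ : ℝ, θ = 2 * (2 : ℝ) ^ (-N) * Real.exp (m * (Real.pi / 2) * C1) := ⟨_, rfl⟩
  have hθ0 : 0 < θ := by rw [hθ]; positivity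
  -- the step
  have hstep : ∀ r A : ℝ, 2 * r * ‖u‖ ≤ 1 → 0 ≤ A →
      (∀ τ : ℂ, ‖τ‖ ≤ 2 * r → ∀ w, H w = 0 → ‖s (p + τ • u + w)‖ * E (p + τ • u + w) ≤ A) →
      ∀ τ : ℂ, ‖τ‖ ≤ r → ∀ w, H w = 0 → ‖s (p + τ • u + w)‖ * E (p + τ • u + w) ≤ θ * A := by
    intro r A hr hA h1 τ hτ w hw
    obtain ⟨l, hl, hHl, hd⟩ := hR w hw
    obtain ⟨d, hd'⟩ : ∃ d, d = w - l := ⟨_, rfl⟩
    rw [← hd'] at hd
    have hHd : H d = 0 := by rw [hd', map_sub, hw, hHl, sub_zero]
    have e1 : p + τ • u + w = (p + τ • u + d) + l := by rw [hd']; abel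
    rw [e1, hPer l hl hHl]
    have hg : Differentiable ℂ (fun z : ℂ => s (p + z • (τ • u + d))) :=
      hs.comp ((differentiable_const p).add (differentiable_id.smul_const _))
    have h2 := schwarz hg (N := N) (fun q' hq' => hN q' hq' (τ • u + d))
      (A := A * Real.exp (m * (Real.pi / 2) * C1)) (by
        intro z hz
        have e2 : p + z • (τ • u + d) = p + (z * τ) • u + z • d := by
          rw [smul_add, smul_smul, add_assoc]
        have hzτ : ‖z * τ‖ ≤ 2 * r := by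
          rw [norm_mul, hz]
          linarith
        rw [e2]
        refine hsE A C1 _ hA (hC1' _ ?_) (h1 (z * τ) hzτ (z • d) (by rw [map_smul, hHd, smul_zero]))
        have h3 : ‖(z * τ) • u‖ ≤ 1 := by
          rw [norm_smul]
          exact (mul_le_mul_of_nonneg_right hzτ (norm_nonneg _)).trans hr
        have h4 : ‖z • d‖ ≤ 2 * R := by
          rw [norm_smul, hz]
          linarith
        have h5 := norm_add_le (p + (z * τ) • u) (z • d)
        have h6 := norm_add_le p ((z * τ) • u)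
        linarith)
    rw [one_smul, ← add_assoc] at h2
    calc ‖s (p + τ • u + d)‖ * E (p + τ • u + d) ≤ ‖s (p + τ • u + d)‖ * 1 :=
          mul_le_mul_of_nonneg_left (hE1 _) (norm_nonneg _)
      _ = ‖s (p + τ • u + d)‖ := mul_one _
      _ ≤ 2 * (A * Real.exp (m * (Real.pi / 2) * C1)) * (2 : ℝ) ^ (-N) := h2
      _ = θ * A := by rw [hθ]; ring
  -- the start
  obtain ⟨ρ, hρ⟩ : ∃ ρ : ℝ, ρ = 1 / (1 + ‖u‖) := ⟨_, rfl⟩
  have hu0 := norm_nonneg u
  have hρ0 : 0 < ρ := by rw [hρ]; positivity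
  have hρu : ρ * ‖u‖ ≤ 1 := by
    rw [hρ, one_div, inv_mul_le_iff₀ (by positivity)]
    linarith
  have : ProperSpace V := FiniteDimensional.proper ℂ V
  obtain ⟨A0, hA0⟩ := (isCompact_closedBall (0 : V) (‖p‖ + 1 + R)).exists_bound_of_continuousOn
    hs.continuous.continuousOn
  have hA0' : 0 ≤ A0 := (norm_nonneg _).trans (hA0 0 (by
    rw [mem_closedBall_zero_iff, norm_zero]
    positivity))
  have hstart : ∀ τ : ℂ, ‖τ‖ ≤ ρ → ∀ w, H w = 0 →
      ‖s (p + τ • u + w)‖ * E (p + τ • u + w) ≤ A0 := by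
    intro τ hτ w hw
    obtain ⟨l, hl, hHl, hd⟩ := hR w hw
    obtain ⟨d, hd'⟩ : ∃ d, d = w - l := ⟨_, rfl⟩
    rw [← hd'] at hd
    have e1 : p + τ • u + w = (p + τ • u + d) + l := by rw [hd']; abel
    rw [e1, hPer l hl hHl]
    have h3 : ‖τ • u‖ ≤ 1 := by
      rw [norm_smul]
      exact (mul_le_mul_of_nonneg_right hτ (norm_nonneg _)).trans hρu
    have h1 : ‖s (p + τ • u + d)‖ ≤ A0 := by
      refine hA0 _ ?_
      rw [mem_closedBall_zero_iff]
      have h5 := norm_add_le (p + τ • u) d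
      have h6 := norm_add_le p (τ • u)
      linarith
    calc ‖s (p + τ • u + d)‖ * E (p + τ • u + d) ≤ ‖s (p + τ • u + d)‖ * 1 :=
          mul_le_mul_of_nonneg_left (hE1 _) (norm_nonneg _)
      _ ≤ A0 := by rw [mul_one]; exact h1
  -- the iteration
  have hiter : ∀ i : ℕ, ∀ τ : ℂ, ‖τ‖ ≤ ρ / 2 ^ i → ∀ w, H w = 0 →
      ‖s (p + τ • u + w)‖ * E (p + τ • u + w) ≤ θ ^ i * A0 := by
    intro i
    induction i with
    | zero =>
      intro τ hτ w hw
      rw [pow_zero, div_one] at hτ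
      rw [pow_zero, one_mul]
      exact hstart τ hτ w hw
    | succ i ih =>
      have e1 : 2 * (ρ / 2 ^ (i + 1)) = ρ / 2 ^ i := by
        rw [pow_succ]
        field_simp
      have h1 := hstep (ρ / 2 ^ (i + 1)) (θ ^ i * A0) (by
        rw [e1]
        have h2 : ρ / 2 ^ i ≤ ρ := div_le_self hρ0.le (one_le_pow₀ (by norm_num))
        exact (mul_le_mul_of_nonneg_right h2 hu0).trans hρu) (by positivity) (by
        rw [e1]
        exact ih)
      intro τ hτ w hw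
      have h2 := h1 τ hτ w hw
      rwa [← mul_assoc, ← pow_succ'] at h2
  -- the lower bound
  obtain ⟨D, hD⟩ : ∃ D : ℝ, D = ‖iteratedDeriv q (fun t : ℂ => s (v₀ + t • u)) 0‖ := ⟨_, rfl⟩
  have hD0 : 0 < D := by rw [hD]; exact norm_pos_iff.2 hu
  obtain ⟨B, hB⟩ : ∃ B : ℝ, B = (q.factorial : ℝ) * (A0 *
    Real.exp (m * (Real.pi / 2) * (C * (‖v₀‖ + 1) ^ 2))) / ρ ^ q := ⟨_, rfl⟩
  have hh : Differentiable ℂ (fun t : ℂ => s (v₀ + t • u)) :=
    hs.comp ((differentiable_const v₀).add (differentiable_id.smul_const _))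
  have hle : ∀ i : ℕ, D ≤ B * (θ * 2 ^ q) ^ i := by
    intro i
    have hri : 0 < ρ / 2 ^ i := by positivity
    have h1 := Complex.norm_iteratedDeriv_le_of_forall_mem_sphere_norm_le (c := 0) (R := ρ / 2 ^ i)
      (C := θ ^ i * A0 * Real.exp (m * (Real.pi / 2) * (C * (‖v₀‖ + 1) ^ 2)))
      (f := fun t : ℂ => s (v₀ + t • u)) q hri hh.diffContOnCl (by
        intro t ht
        have ht' : ‖t‖ = ρ / 2 ^ i := by simpa using ht
        have e1 : v₀ + t • u = p + t • u + (v₀ - p) := by abel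
        have h2 : ‖v₀ + t • u‖ ≤ ‖v₀‖ + 1 := by
          have h3 : ‖t • u‖ ≤ 1 := by
            rw [norm_smul, ht']
            have h2 : ρ / 2 ^ i ≤ ρ := div_le_self hρ0.le (one_le_pow₀ (by norm_num))
            exact (mul_le_mul_of_nonneg_right h2 hu0).trans hρu
          have h4 := norm_add_le v₀ (t • u)
          linarith
        refine hsE _ _ _ (by positivity) ((hC _).trans
          (mul_le_mul_of_nonneg_left (pow_le_pow_left₀ (norm_nonneg _) h2 2) hC0)) ?_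
        rw [e1]
        exact hiter i t ht'.le (v₀ - p) hpv)
    rw [← hD] at h1
    refine h1.trans (le_of_eq ?_)
    rw [hB, mul_pow, div_pow, ← pow_mul, ← pow_mul, mul_comm i q]
    field_simp
  have h1 : 1 ≤ θ * 2 ^ q := by
    by_contra hcon
    have hcon' : θ * 2 ^ q < 1 := not_le.1 hcon
    have hB0 : 0 < B := by
      by_contra hB0
      have h2 := hle 0
      rw [pow_zero, mul_one] at h2
      linarith
    obtain ⟨i, hi⟩ := exists_pow_lt_of_lt_one (div_pos hD0 hB0) hcon'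
    have h2 := hle i
    rw [lt_div_iff₀ hB0] at hi
    linarith
  have h2 : θ * 2 ^ q = Real.exp (Real.log 2 * (1 - N + q) + m * (Real.pi / 2) * C1) := by
    have e1 : (2 : ℝ) ^ (-N) = Real.exp (Real.log 2 * -N) := Real.rpow_def_of_pos (by norm_num) _
    have e2 : (2 : ℝ) ^ q = Real.exp (Real.log 2 * q) := by
      rw [← Real.rpow_natCast, Real.rpow_def_of_pos (by norm_num)]
    have e3 : (2 : ℝ) = Real.exp (Real.log 2) := (Real.exp_log (by norm_num)).symm
    calc θ * 2 ^ q = 2 * (2 : ℝ) ^ (-N) * Real.exp (m * (Real.pi / 2) * C1) * 2 ^ q := by rw [hθ]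
      _ = Real.exp (Real.log 2) * Real.exp (Real.log 2 * -N) *
          Real.exp (m * (Real.pi / 2) * C1) * Real.exp (Real.log 2 * q) := by
        rw [e1, e2, ← e3]
      _ = _ := by
        rw [← Real.exp_add, ← Real.exp_add, ← Real.exp_add]
        congr 1
        ring
  rw [h2] at h1
  have h3 : 0 ≤ Real.log 2 * (1 - N + q) + m * (Real.pi / 2) * C1 := Real.one_le_exp_iff.1 h1
  have h4 : Real.log 2 * N ≤ Real.log 2 * (q + m * (1 + Real.pi * C1 / (2 * Real.log 2))) := by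
    have e1 : Real.log 2 * (q + m * (1 + Real.pi * C1 / (2 * Real.log 2))) =
        Real.log 2 * q + m * Real.log 2 + m * (Real.pi / 2) * C1 := by
      field_simp
      ring
    rw [e1]
    nlinarith
  exact le_of_mul_le_mul_left h4 hlog

end

end Pool.Agent.H19.TBM
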