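import Pool.Agent.H19.TBM.Ana
import Pool.Agent.H19.TPB.Defs

/-!
# Multiplicities of nef line bundles on birational models of quotients of abelian varieties
-/

set_option autoImplicit false

namespace Pool.Agent.H19.TBM

open Complex Pool.Agent.H19.TPB

variable {V : Type*} [NormedAddCommGroup V] [NormedSpace ℂ V]

/-- integrality of the form of a factor of automorphy -/
theorem factor_int {Γ : Subgroup (V ≃ᵃ[ℂ] V)} {Λ : AddSubgroup V}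
    (hΛ : ∀ l : V, l ∈ Λ ↔ AffineEquiv.constVAdd ℂ V l ∈ Γ)
    {H : V →ₗ[ℂ] V →ₛₗ[starRingEnd ℂ] ℂ} (hherm : ∀ v w, H w v = starRingEnd ℂ (H v w))
    {j : (V ≃ᵃ[ℂ] V) → V → ℂ} (hj : IsFactor Γ Λ H j) :
    ∀ l ∈ Λ, ∀ m ∈ Λ, ∃ k : ℤ, (H l m).im = k := by
  obtain ⟨α, hα, hjΛ⟩ := hj.ah
  have hα0 : ∀ l ∈ Λ, α l ≠ 0 := fun l hl h => by simpa [h] using hα l hl
  have h2 : ∀ l m : V, AffineEquiv.constVAdd ℂ V l * AffineEquiv.constVAdd ℂ V m =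
      AffineEquiv.constVAdd ℂ V (l + m) := by
    intro l m
    rw [AffineEquiv.constVAdd_add]
    rfl
  have h3 : ∀ l m : V, (AffineEquiv.constVAdd ℂ V m) l = m + l := by
    intro l m
    simp
  intro l hl m hm
  have h1 := hj.mul _ ((hΛ l).1 hl) _ ((hΛ m).1 hm) 0
  have h1' := hj.mul _ ((hΛ m).1 hm) _ ((hΛ l).1 hl) 0
  rw [h2] at h1 h1'
  rw [add_comm m l, h1] at h1'
  rw [h3, h3, add_zero, add_zero, hjΛ l hl, hjΛ m hm, hjΛ m hm, hjΛ l hl] at h1'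
  simp only [map_zero, LinearMap.zero_apply, mul_zero, zero_add] at h1'
  have h4 : H l m - H m l = 2 * I * (H l m).im := by
    rw [hherm l m, Complex.sub_conj]
    push_cast
    ring
  have h5 : α l * α m * cexp (Real.pi / 2 * H l l + Real.pi / 2 * H m m) ≠ 0 :=
    mul_ne_zero (mul_ne_zero (hα0 l hl) (hα0 m hm)) (exp_ne_zero _)
  have h6 : cexp (Real.pi * H m l) = cexp (Real.pi * H l m) := by
    apply mul_left_cancel₀ h5
    simp only [exp_add] at h1' h5 ⊢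
    linear_combination h1'
  obtain ⟨k, hk⟩ := Complex.exp_eq_exp_iff_exists_int.1 h6
  refine ⟨-k, ?_⟩
  have h7 : ((H l m).im : ℂ) = ((-k : ℤ) : ℂ) := by
    have hpi : (2 * Real.pi * I : ℂ) ≠ 0 := by
      simp [Real.pi_ne_zero]
    apply mul_left_cancel₀ hpi
    push_cast
    linear_combination -(Real.pi : ℂ) * h4 - hk
  exact_mod_cast h7

/-- the transformation rule of a section under the lattice vectors in the kernel of `H` -/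
theorem section_norm {Γ : Subgroup (V ≃ᵃ[ℂ] V)} {Λ : AddSubgroup V}
    (hΛ : ∀ l : V, l ∈ Λ ↔ AffineEquiv.constVAdd ℂ V l ∈ Γ)
    {H HM : V →ₗ[ℂ] V →ₛₗ[starRingEnd ℂ] ℂ} (hherm : ∀ v w, H w v = starRingEnd ℂ (H v w))
    {j jM : (V ≃ᵃ[ℂ] V) → V → ℂ} (hj : IsFactor Γ Λ H j) (hjM : IsFactor Γ Λ HM jM)
    {k m : ℕ} {s : V → ℂ} (hs : ∀ γ ∈ Γ, ∀ v, s (γ v) = (j γ v ^ k * jM γ v) ^ m * s v) :
    ∀ l ∈ Λ, H l = 0 → ∀ v, ‖s (v + l)‖ =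
      Real.exp (m * (Real.pi * (HM v l).re + Real.pi / 2 * (HM l l).re)) * ‖s v‖ := by
  obtain ⟨α, hα, hjΛ⟩ := hj.ah
  obtain ⟨β, hβ, hjMΛ⟩ := hjM.ah
  intro l hl hHl v
  have h1 := hs _ ((hΛ l).1 hl) v
  have h2 : (AffineEquiv.constVAdd ℂ V l) v = v + l := by
    simp [add_comm]
  have h3 : H v l = 0 := by
    rw [hherm l v, hHl]
    simp
  have h4 : H l l = 0 := by
    rw [hHl]
    simp
  rw [h2, hjΛ l hl v, hjMΛ l hl v, h3, h4, mul_zero, mul_zero, add_zero, exp_zero, mul_one] at h1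
  rw [h1, norm_mul, norm_pow, norm_mul, norm_pow, hα l hl, one_pow, one_mul, norm_mul, hβ l hl,
    one_mul, Complex.norm_exp, ← Real.exp_nat_mul]
  congr 3
  simp [Complex.add_re, Complex.mul_re, Complex.ofReal_re, Complex.ofReal_im]

variable [FiniteDimensional ℂ V]

/-- The multiplicities of a nef line bundle are invariant under the kernel of its form. -/
theorem mult_le {Γ : Subgroup (V ≃ᵃ[ℂ] V)} {Λ : AddSubgroup V}
    (hΛ : ∀ l : V, l ∈ Λ ↔ AffineEquiv.constVAdd ℂ V l ∈ Γ)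
    {ι : Type*} [Fintype ι] (e : Module.Basis ι ℝ V) (he : ∀ i, e i ∈ Λ)
    {H HM : V →ₗ[ℂ] V →ₛₗ[starRingEnd ℂ] ℂ} (hherm : ∀ v w, H w v = starRingEnd ℂ (H v w))
    (hM1 : ∀ v w, HM w v = starRingEnd ℂ (HM v w)) (hM2 : ∀ v, 0 ≤ (HM v v).re)
    {j jM : (V ≃ᵃ[ℂ] V) → V → ℂ} (hj : IsFactor Γ Λ H j) (hjM : IsFactor Γ Λ HM jM)
    {b : V → ℝ} (hb : NefModel Γ j jM b) (p v₀ : V) (hpv : H (v₀ - p) = 0) : b p ≤ b v₀ := by
  obtain ⟨C, hC⟩ := hb v₀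
  obtain ⟨R, -, hR⟩ := ker_cover e Λ he H (factor_int hΛ hherm hj)
  obtain ⟨C', hC'⟩ := order_le H HM Λ hM1 hM2 hR hpv
  have key : ∀ k : ℕ, 1 ≤ k → (k : ℝ) * (b p - b v₀) ≤ C + C' := by
    intro k hk
    obtain ⟨m, hm, s, hs1, hs2, hs3, hs4⟩ := hC k hk
    have hm1 : (1 : ℝ) ≤ m := by exact_mod_cast hm
    -- a nonzero derivative at `v₀`
    obtain ⟨X, hX⟩ : ∃ X : ℝ, X = m * (k * b v₀ + C) := ⟨_, rfl⟩
    have hX0 : 0 ≤ X := by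
      rw [hX]
      refine hs4 0 fun q hq => absurd hq (not_lt.2 (Nat.cast_nonneg _))
    obtain ⟨q, hq, u, hu⟩ : ∃ q : ℕ, (q : ℝ) ≤ X ∧ ∃ u : V,
        iteratedDeriv q (fun t : ℂ => s (v₀ + t • u)) 0 ≠ 0 := by
      by_contra hcon
      push Not at hcon
      have h1 : VanishesTo s v₀ (⌊X⌋₊ + 1) := by
        intro q hq u
        have h2 : q ≤ ⌊X⌋₊ := by
          have : q < ⌊X⌋₊ + 1 := by exact_mod_cast hq
          omega
        exact hcon q ((Nat.le_floor_iff hX0).1 h2) u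
      have h2 := hs4 _ h1
      rw [← hX] at h2
      have h3 := Nat.lt_floor_add_one X
      linarith
    have h1 := hC' m s hm hs1 (section_norm hΛ hherm hj hjM hs2) _ (hs3 p) q u hu
    have h2 : (m : ℝ) * (k * b p) ≤ m * (k * b v₀ + C + C') := by
      rw [hX] at hq
      linarith
    have h3 := le_of_mul_le_mul_left h2 (by linarith)
    linarith
  by_contra hcon
  have hpos : 0 < b p - b v₀ := by linarith [not_le.1 hcon]
  obtain ⟨k, hk⟩ := exists_nat_gt ((C + C') / (b p - b v₀))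
  have h1 := key (k + 1) (by omega)
  rw [div_lt_iff₀ hpos] at hk
  push_cast at h1
  linarith

/-- the invariance of the multiplicities -/
theorem mult_eq {Γ : Subgroup (V ≃ᵃ[ℂ] V)} {Λ : AddSubgroup V}
    (hΛ : ∀ l : V, l ∈ Λ ↔ AffineEquiv.constVAdd ℂ V l ∈ Γ)
    {ι : Type*} [Fintype ι] (e : Module.Basis ι ℝ V) (he : ∀ i, e i ∈ Λ)
    {H HM : V →ₗ[ℂ] V →ₛₗ[starRingEnd ℂ] ℂ} (hherm : ∀ v w, H w v = starRingEnd ℂ (H v w))
    (hM1 : ∀ v w, HM w v = starRingEnd ℂ (HM v w)) (hM2 : ∀ v, 0 ≤ (HM v v).re)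
    {j jM : (V ≃ᵃ[ℂ] V) → V → ℂ} (hj : IsFactor Γ Λ H j) (hjM : IsFactor Γ Λ HM jM)
    {b : V → ℝ} (hb : NefModel Γ j jM b) (v w : V) (hw : H w = 0) : b (v + w) = b v := by
  refine le_antisymm (mult_le hΛ e he hherm hM1 hM2 hj hjM hb _ _ ?_)
    (mult_le hΛ e he hherm hM1 hM2 hj hjM hb _ _ ?_)
  · have e1 : v - (v + w) = -w := by abel
    rw [e1, map_neg, hw, neg_zero]
  · have e1 : v + w - v = w := by abel
    rw [e1, hw]

/-- a countable group of affine automorphisms each point of a translate of `K` is fixed by a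
non-translation: then `K` is contained in the kernel of `γ.linear - 1` for one of them -/
theorem fixed_kernel (Γ : Subgroup (V ≃ᵃ[ℂ] V)) (hΓ : (Γ : Set (V ≃ᵃ[ℂ] V)).Countable)
    (K : Submodule ℂ V) (p : V) (h : ∀ w ∈ K, ∃ γ ∈ Γ, γ (p + w) = p + w ∧ γ.linear ≠ 1) :
    ∃ γ ∈ Γ, (∃ x, γ x = x) ∧ γ.linear ≠ 1 ∧ ∀ w ∈ K, γ.linear w = w := by
  classical
  obtain ⟨Γ', hΓ'⟩ : ∃ Γ' : Set (V ≃ᵃ[ℂ] V), Γ' = {γ | γ ∈ Γ ∧ γ.linear ≠ 1} := ⟨_, rfl⟩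
  have hmem : ∀ γ, γ ∈ Γ' ↔ γ ∈ Γ ∧ γ.linear ≠ 1 := by
    rw [hΓ']
    exact fun γ => Iff.rfl
  have hc : Γ'.Countable := hΓ.mono fun γ hγ => ((hmem γ).1 hγ).1
  have : Countable Γ' := hc.to_subtype
  have : CompleteSpace K := FiniteDimensional.complete ℂ K
  obtain ⟨γ, hγ⟩ := nonempty_interior_of_iUnion_of_closed
    (f := fun γ : Γ' => {w : K | (γ : V ≃ᵃ[ℂ] V) (p + w) = p + w}) (by
      intro γ
      refine isClosed_eq ?_ ?_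
      · exact (H77.TQ.differentiable_affine (γ : V ≃ᵃ[ℂ] V)).continuous.comp
          (continuous_const.add continuous_subtype_val)
      · exact continuous_const.add continuous_subtype_val) (by
      refine Set.eq_univ_of_forall fun w => ?_
      obtain ⟨γ, h1, h2, h3⟩ := h w w.2
      rw [Set.mem_iUnion]
      exact ⟨⟨γ, (hmem γ).2 ⟨h1, h3⟩⟩, h2⟩)
  obtain ⟨w0, hw0⟩ := hγ
  have hγ' : (γ : V ≃ᵃ[ℂ] V) ∈ Γ ∧ (γ : V ≃ᵃ[ℂ] V).linear ≠ 1 := (hmem _).1 γ.2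
  have hfix0 : w0 ∈ {w : K | (γ : V ≃ᵃ[ℂ] V) (p + w) = p + w} := interior_subset hw0
  have hfix : (γ : V ≃ᵃ[ℂ] V) (p + w0) = p + w0 := hfix0
  refine ⟨γ, hγ'.1, ⟨_, hfix⟩, hγ'.2, fun w hw => ?_⟩
  -- move a little in the direction of `w`
  have h1 : Filter.Tendsto (fun t : ℝ => w0 + (t : ℂ) • (⟨w, hw⟩ : K)) (nhds 0) (nhds w0) := by
    have h2 : Continuous (fun t : ℝ => w0 + (t : ℂ) • (⟨w, hw⟩ : K)) := by fun_prop
    have h3 := h2.tendsto 0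
    simpa using h3
  have h2 : ∀ᶠ t : ℝ in nhds 0, w0 + (t : ℂ) • (⟨w, hw⟩ : K) ∈
      interior {w : K | (γ : V ≃ᵃ[ℂ] V) (p + w) = p + w} :=
    h1 (isOpen_interior.mem_nhds hw0)
  obtain ⟨ε, hε, hball⟩ := Metric.eventually_nhds_iff.1 h2
  have h3 := interior_subset (hball (y := ε / 2) (by
    rw [Real.dist_eq, sub_zero, abs_of_pos (by positivity)]
    linarith))
  have h4 : (γ : V ≃ᵃ[ℂ] V) (p + (w0 + ((ε / 2 : ℝ) : ℂ) • w)) =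
      p + (w0 + ((ε / 2 : ℝ) : ℂ) • w) := h3
  rw [H77.TQ.affine_apply] at h4 hfix
  have h5 : (γ : V ≃ᵃ[ℂ] V).linear (((ε / 2 : ℝ) : ℂ) • w) = ((ε / 2 : ℝ) : ℂ) • w := by
    have e1 : p + (w0 + ((ε / 2 : ℝ) : ℂ) • w) = (p + w0) + ((ε / 2 : ℝ) : ℂ) • w := by abel
    rw [e1, map_add] at h4
    have e2 : ∀ a b c d : V, a = b → c = d → a - c = b - d := fun a b c d h h' => by rw [h, h']
    have e2 := e2 _ _ _ _ h4 hfix
    have e3 : (γ : V ≃ᵃ[ℂ] V).linear (p + (w0 : V)) +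
        (γ : V ≃ᵃ[ℂ] V).linear (((ε / 2 : ℝ) : ℂ) • w) + (γ : V ≃ᵃ[ℂ] V) 0 -
        ((γ : V ≃ᵃ[ℂ] V).linear (p + (w0 : V)) + (γ : V ≃ᵃ[ℂ] V) 0) =
        (γ : V ≃ᵃ[ℂ] V).linear (((ε / 2 : ℝ) : ℂ) • w) := by abel
    have e4 : p + (w0 : V) + ((ε / 2 : ℝ) : ℂ) • w - (p + (w0 : V)) =
        ((ε / 2 : ℝ) : ℂ) • w := by abel
    rw [e3, e4] at e2
    exact e2
  rw [map_smul] at h5
  have hne : ((ε / 2 : ℝ) : ℂ) ≠ 0 := by
    rw [Complex.ofReal_ne_zero]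
    positivity
  exact smul_right_injective V hne h5

theorem gamma_countable (Γ : Subgroup (V ≃ᵃ[ℂ] V)) (Λ : AddSubgroup V)
    (hΛ : ∀ l : V, l ∈ Λ ↔ AffineEquiv.constVAdd ℂ V l ∈ Γ) (hc : (Λ : Set V).Countable)
    (hfin : Finite (Γ.map (AffineEquiv.linearHom : (V ≃ᵃ[ℂ] V) →* (V ≃ₗ[ℂ] V)))) :
    (Γ : Set (V ≃ᵃ[ℂ] V)).Countable := by
  classical
  have hrep : ∀ c : Γ.map (AffineEquiv.linearHom : (V ≃ᵃ[ℂ] V) →* (V ≃ₗ[ℂ] V)),
      ∃ g : V ≃ᵃ[ℂ] V, g ∈ Γ ∧ g.linear = (c : V ≃ₗ[ℂ] V) := by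
    rintro ⟨c, g, hg, hgc⟩
    exact ⟨g, hg, hgc⟩
  choose g hg hgc using hrep
  have h1 : (⋃ c, (fun l : V => AffineEquiv.constVAdd ℂ V l * g c) '' (Λ : Set V)).Countable :=
    Set.countable_iUnion fun c => hc.image _
  refine h1.mono fun γ hγ => ?_
  have hγ' : γ ∈ Γ := hγ
  obtain ⟨c, hcd⟩ : ∃ c : Γ.map (AffineEquiv.linearHom : (V ≃ᵃ[ℂ] V) →* (V ≃ₗ[ℂ] V)),
      (c : V ≃ₗ[ℂ] V) = γ.linear := ⟨⟨γ.linear, γ, hγ', rfl⟩, rfl⟩
  rw [Set.mem_iUnion]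
  refine ⟨c, γ 0 - g c 0, ?_, ?_⟩
  · have h2 : AffineEquiv.constVAdd ℂ V (γ 0 - g c 0) = γ * (g c)⁻¹ := by
      rw [eq_mul_inv_iff_mul_eq]
      ext v
      show AffineEquiv.constVAdd ℂ V (γ 0 - g c 0) (g c v) = γ v
      rw [H77.TQ.affine_apply (g c) v, H77.TQ.affine_apply γ v, hgc, hcd]
      simp
      abel
    show γ 0 - g c 0 ∈ Λ
    rw [hΛ, h2]
    exact Γ.mul_mem hγ' (Γ.inv_mem (hg c))
  · ext v
    show AffineEquiv.constVAdd ℂ V (γ 0 - g c 0) (g c v) = γ v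
    rw [H77.TQ.affine_apply (g c) v, H77.TQ.affine_apply γ v, hgc, hcd]
    simp
    abel

/-- **Nef line bundles on birational models of quotients of abelian varieties.** -/
theorem main (Γ : Subgroup (V ≃ᵃ[ℂ] V)) (Λ : AddSubgroup V)
    (hΛ : ∀ l : V, l ∈ Λ ↔ AffineEquiv.constVAdd ℂ V l ∈ Γ)
    {ι : Type*} [Fintype ι] (e : Module.Basis ι ℝ V)
    (hΛe : ∀ l : V, l ∈ Λ ↔ ∃ k : ι → ℤ, l = ∑ i, (k i : ℝ) • e i)
    (hfin : Finite (Γ.map (AffineEquiv.linearHom : (V ≃ᵃ[ℂ] V) →* (V ≃ₗ[ℂ] V))))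
    (hq : ∀ v : V, (∀ γ ∈ Γ, γ.linear v = v) → v = 0)
    (H HM : V →ₗ[ℂ] V →ₛₗ[starRingEnd ℂ] ℂ)
    (hherm : ∀ v w, H w v = starRingEnd ℂ (H v w)) (hnef : ∀ v, 0 ≤ (H v v).re)
    (hM1 : ∀ v w, HM w v = starRingEnd ℂ (HM v w)) (hM2 : ∀ v, 0 ≤ (HM v v).re)
    (j jM : (V ≃ᵃ[ℂ] V) → V → ℂ) (hj : IsFactor Γ Λ H j) (hjM : IsFactor Γ Λ HM jM)
    (b : V → ℝ) (hb : NefModel Γ j jM b) :
    (∀ v w, H w = 0 → b (v + w) = b v) ∧
    GlobGen Γ j (Nat.card (Γ.map (AffineEquiv.linearHom : (V ≃ᵃ[ℂ] V) →* (V ≃ₗ[ℂ] V)))) ∧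
    ((∀ p, b p ≠ 0 → ∃ γ ∈ Γ, γ p = p ∧ γ.linear ≠ 1) → (∀ p, b p = 0) ∨
      ∃ γ ∈ Γ, (∃ x, γ x = x) ∧ γ.linear ≠ 1 ∧ ∀ w, H w = 0 → γ.linear w = w) := by
  classical
  have he : ∀ i, e i ∈ Λ := by
    intro i
    rw [hΛe]
    refine ⟨Pi.single i 1, ?_⟩
    rw [Finset.sum_eq_single i]
    · simp
    · intro i' _ hi'
      rw [Pi.single_eq_of_ne hi']
      simp
    · intro h
      exact absurd (Finset.mem_univ i) h
  have hinv : ∀ v w, H w = 0 → b (v + w) = b v := fun v w hw =>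
    mult_eq hΛ e he hherm hM1 hM2 hj hjM hb v w hw
  refine ⟨hinv, ?_, fun hsing => ?_⟩
  · obtain ⟨α, hα, hjΛ⟩ := hj.ah
    have hspan : Submodule.span ℝ (Λ : Set V) = ⊤ := by
      rw [eq_top_iff, ← e.span_eq]
      exact Submodule.span_mono (by rintro _ ⟨i, rfl⟩; exact he i)
    exact H77.TQ.main Γ Λ hΛ hspan hfin hq H hherm hnef α hα j hj.diff hj.ne_zero hj.mul hjΛ
  · by_cases hb0 : ∀ p, b p = 0
    · exact Or.inl hb0
    right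
    push Not at hb0
    obtain ⟨p, hp⟩ := hb0
    have hcount : (Λ : Set V).Countable := by
      have h1 : (Λ : Set V) ⊆ Set.range (fun k : ι → ℤ => ∑ i, (k i : ℝ) • e i) := by
        intro l hl
        obtain ⟨k, hk⟩ := (hΛe l).1 hl
        exact ⟨k, hk.symm⟩
      exact (Set.countable_range _).mono h1
    obtain ⟨γ, h1, h2, h3, h4⟩ := fixed_kernel Γ (gamma_countable Γ Λ hΛ hcount hfin)
      (LinearMap.ker H) p (fun w hw => by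
        have hw' : H w = 0 := LinearMap.mem_ker.1 hw
        obtain ⟨γ, h1, h2, h3⟩ := hsing (p + w) (by rw [hinv p w hw']; exact hp)
        exact ⟨γ, h1, h2, h3⟩)
    exact ⟨γ, h1, h2, h3, fun w hw => h4 w (LinearMap.mem_ker.2 hw)⟩

end Pool.Agent.H19.TBM
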