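import Pool.Agent.H77.TQ.Norm

/-!
# The kernel of an integral form is spanned by lattice vectors
-/

set_option autoImplicit false

namespace Pool.Agent.H19.TBM

open Complex

/-- a common denominator of finitely many rational numbers -/
theorem common_den {ι : Type*} [Fintype ι] (y : ι → ℚ) :
    ∃ d : ℕ, 0 < d ∧ ∃ z : ι → ℤ, ∀ i, (d : ℚ) * y i = z i := by
  classical
  refine ⟨∏ i, (y i).den, Finset.prod_pos fun i _ => (y i).den_pos,
    fun i => (∏ i' ∈ Finset.univ.erase i, ((y i').den : ℤ)) * (y i).num, fun i => ?_⟩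
  rw [← Finset.mul_prod_erase _ _ (Finset.mem_univ i)]
  push_cast
  have h := Rat.mul_den_eq_num (y i)
  linear_combination (∏ i' ∈ Finset.univ.erase i, ((y i').den : ℚ)) * h

/-- The real solutions of a system of linear equations with integral coefficients are spanned by the
integral solutions. -/
theorem span_int_kernel {ι κ : Type*} [Fintype ι] (A : κ → ι → ℤ) (x : ι → ℝ)
    (hx : ∀ j, ∑ i, (A j i : ℝ) * x i = 0) :
    x ∈ Submodule.span ℝ {y : ι → ℝ | ∃ z : ι → ℤ, (∀ i, y i = z i) ∧ ∀ j, ∑ i, A j i * z i = 0} := by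
  classical
  let B := Module.Basis.ofVectorSpace ℚ ℝ
  let T := Finset.univ.biUnion (fun i => (B.repr (x i)).support)
  have hxi : ∀ i, x i = ∑ k ∈ T, (B.repr (x i) k : ℝ) * B k := by
    intro i
    have h1 := B.linearCombination_repr (x i)
    rw [Finsupp.linearCombination_apply] at h1
    have h2 : (B.repr (x i)).support ⊆ T := by
      intro k hk
      exact Finset.mem_biUnion.2 ⟨i, Finset.mem_univ _, hk⟩
    rw [Finsupp.sum_of_support_subset _ h2 _ (by simp)] at h1
    rw [← h1]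
    refine Finset.sum_congr rfl fun k _ => ?_
    rw [h1, Rat.smul_def]
  have hk : ∀ j k, ∑ i, (A j i : ℚ) * B.repr (x i) k = 0 := by
    intro j k
    have h1 : ∑ i, (A j i : ℚ) • x i = 0 := by
      rw [← hx j]
      refine Finset.sum_congr rfl fun i _ => ?_
      rw [Rat.smul_def]
      push_cast
      rfl
    have h2 := congrArg (fun y => B.repr y k) h1
    simpa only [map_sum, map_smul, Finsupp.coe_finsetSum, Finset.sum_apply, Finsupp.smul_apply,
      smul_eq_mul, map_zero, Finsupp.coe_zero, Pi.zero_apply] using h2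
  have hmem : ∀ k, (fun i => (B.repr (x i) k : ℝ)) ∈
      Submodule.span ℝ {y : ι → ℝ | ∃ z : ι → ℤ, (∀ i, y i = z i) ∧ ∀ j, ∑ i, A j i * z i = 0} := by
    intro k
    obtain ⟨d, hd, z, hz⟩ := common_den (fun i => B.repr (x i) k)
    have h1 : (fun i => (B.repr (x i) k : ℝ)) = (d : ℝ)⁻¹ • (fun i => (z i : ℝ)) := by
      funext i
      rw [Pi.smul_apply, smul_eq_mul, eq_inv_mul_iff_mul_eq₀ (by positivity)]
      exact_mod_cast congrArg (Rat.cast : ℚ → ℝ) (hz i)
    rw [h1]
    refine Submodule.smul_mem _ _ (Submodule.subset_span ⟨z, fun _ => rfl, fun j => ?_⟩)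
    have h2 : ((∑ i, A j i * z i : ℤ) : ℚ) = 0 := by
      push_cast
      calc ∑ i, (A j i : ℚ) * (z i : ℚ) = (d : ℚ) * ∑ i, (A j i : ℚ) * B.repr (x i) k := by
            rw [Finset.mul_sum]
            refine Finset.sum_congr rfl fun i _ => ?_
            rw [← hz i]
            ring
        _ = 0 := by rw [hk, mul_zero]
    exact_mod_cast h2
  have h1 : x = ∑ k ∈ T, (B k) • (fun i => (B.repr (x i) k : ℝ)) := by
    funext i
    rw [Finset.sum_apply]
    refine (hxi i).trans (Finset.sum_congr rfl fun k _ => ?_)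
    rw [Pi.smul_apply, smul_eq_mul, mul_comm]
  rw [h1]
  exact Submodule.sum_mem _ fun k _ => Submodule.smul_mem _ _ (hmem k)

section

variable {V : Type*} [NormedAddCommGroup V] [NormedSpace ℂ V] [FiniteDimensional ℂ V]

/-- Modulo the lattice vectors in it, the kernel of a form which is integral on the lattice is
bounded. -/
theorem ker_cover {ι : Type*} [Fintype ι] (e : Module.Basis ι ℝ V) (Λ : AddSubgroup V)
    (he : ∀ i, e i ∈ Λ) (H : V →ₗ[ℂ] V →ₛₗ[starRingEnd ℂ] ℂ)
    (hint : ∀ l ∈ Λ, ∀ m ∈ Λ, ∃ k : ℤ, (H l m).im = k) :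
    ∃ R : ℝ, 0 ≤ R ∧ ∀ w, H w = 0 → ∃ l ∈ Λ, H l = 0 ∧ ‖w - l‖ ≤ R := by
  classical
  choose A hA using fun (j i : ι) => hint (e i) (he i) (e j) (he j)
  have hspan : Submodule.span ℝ (Set.range e) = ⊤ := e.span_eq
  -- real span
  have h1 : ∀ w, H w = 0 → w ∈ Submodule.span ℝ {l : V | l ∈ Λ ∧ H l = 0} := by
    intro w hw
    have h2 : ∀ j, ∑ i, (A j i : ℝ) * e.repr w i = 0 := by
      intro j
      have h3 : (H w (e j)).im = 0 := by
        rw [hw]
        simp
      have h4 : H w (e j) = ∑ i, ((e.repr w i : ℝ) : ℂ) * H (e i) (e j) := by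
        have h5 := congrArg (fun y => H y (e j)) (e.sum_repr w)
        simp only [map_sum, LinearMap.sum_apply] at h5
        rw [← h5]
        refine Finset.sum_congr rfl fun i _ => ?_
        rw [← Complex.coe_smul, map_smul, LinearMap.smul_apply, smul_eq_mul]
      rw [h4, Complex.im_sum] at h3
      rw [← h3]
      refine Finset.sum_congr rfl fun i _ => ?_
      rw [Complex.im_ofReal_mul, hA, mul_comm]
    have h3 := span_int_kernel A (fun i => e.repr w i) h2
    have h4 : w = e.equivFun.symm (fun i => e.repr w i) := by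
      rw [Module.Basis.equivFun_symm_apply]
      exact (e.sum_repr w).symm
    rw [h4]
    have h5 := Submodule.mem_map_of_mem (f := (e.equivFun.symm : (ι → ℝ) →ₗ[ℝ] V)) h3
    rw [Submodule.map_span] at h5
    refine Submodule.span_mono ?_ h5
    rintro _ ⟨y, ⟨z, hz1, hz2⟩, rfl⟩
    have h6 : (e.equivFun.symm : (ι → ℝ) →ₗ[ℝ] V) y = ∑ i, z i • e i := by
      show e.equivFun.symm y = _
      rw [Module.Basis.equivFun_symm_apply]
      refine Finset.sum_congr rfl fun i _ => ?_
      rw [hz1 i]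
      exact Int.cast_smul_eq_zsmul ℝ (z i) (e i)
    rw [h6]
    refine ⟨Λ.sum_mem fun i _ => Λ.zsmul_mem (he i) _, ?_⟩
    refine LinearMap.ext fun x => ?_
    rw [LinearMap.zero_apply]
    refine H77.TQ.form_eq_zero H hspan ?_ x
    rintro _ ⟨j, rfl⟩
    rw [map_sum, LinearMap.sum_apply, Complex.im_sum]
    have h7 : ((∑ i, A j i * z i : ℤ) : ℝ) = 0 := by rw [hz2 j]; simp
    rw [← h7]
    push_cast
    refine Finset.sum_congr rfl fun i _ => ?_
    rw [map_zsmul, LinearMap.smul_apply, ← hA j i, mul_comm]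
    simp
  -- a finite spanning set
  have hfd : Module.Finite ℝ V := Module.Finite.trans ℂ V
  obtain ⟨S, hS1, hS2⟩ : ∃ S : Finset V, (S : Set V) ⊆ {l : V | l ∈ Λ ∧ H l = 0} ∧
      Submodule.span ℝ {l : V | l ∈ Λ ∧ H l = 0} = Submodule.span ℝ (S : Set V) := by
    have hfg : (Submodule.span ℝ {l : V | l ∈ Λ ∧ H l = 0}).FG := IsNoetherian.noetherian _
    exact Submodule.fg_span_iff_fg_span_finset_subset _ |>.1 hfg
  refine ⟨∑ a ∈ S, ‖a‖, Finset.sum_nonneg fun _ _ => norm_nonneg _, fun w hw => ?_⟩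
  have h2 := h1 w hw
  rw [hS2] at h2
  obtain ⟨f, -, hf⟩ := Submodule.mem_span_finset.1 h2
  refine ⟨∑ a ∈ S, ⌊f a⌋ • a, Λ.sum_mem fun a ha => Λ.zsmul_mem (hS1 ha).1 _, ?_, ?_⟩
  · rw [map_sum]
    refine Finset.sum_eq_zero fun a ha => ?_
    rw [map_zsmul, (hS1 ha).2, smul_zero]
  · rw [← hf, ← Finset.sum_sub_distrib]
    refine (norm_sum_le _ _).trans (Finset.sum_le_sum fun a _ => ?_)
    rw [← Int.cast_smul_eq_zsmul ℝ, ← sub_smul, norm_smul, Real.norm_eq_abs]
    have h3 : |f a - ⌊f a⌋| ≤ 1 := by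
      rw [abs_le]
      constructor
      · linarith [Int.floor_le (f a)]
      · linarith [Int.lt_floor_add_one (f a)]
    exact mul_le_of_le_one_left (norm_nonneg _) h3

end

end Pool.Agent.H19.TBM
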